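import Mathlib

/-!
# Markoff-type level sets consisting of exceptional orbits only

For an odd prime `p` and `k ∈ 𝔽_p` let `M_k(𝔽_p) = {x²+y²+z²-xyz-2 = k}`, let `Γ` be the group
generated by the coordinate permutations and the Vieta involution, and let `E_k` be the union of the
exceptional orbits contained in `M_k(𝔽_p)`.  The problem asks whether for all odd primes `p` and all
`k ≠ ±2` the set `M_k(𝔽_p) \ E_k` is a single `Γ`-orbit; its negated form explicitly allows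
that it be empty.  We show that the complement is empty for
`(p,k) = (3,0), (5,0), (5,4), (7,0), (7,1), (11,1)`.  Hence the answer to the question as posed is negative.
-/

namespace Pool.Agent.Results.MP_c86b5e_nt.SmallLevelsOnlyExceptional

/-- Triples over `𝔽_p`. -/
abbrev Pt (p : ℕ) := ZMod p × ZMod p × ZMod p

variable {p : ℕ}

/-- `(x,y,z) ↦ (y,x,z)`. -/
def swap12 (p : ℕ) : Equiv.Perm (Pt p) where
  toFun P := (P.2.1, P.1, P.2.2)
  invFun P := (P.2.1, P.1, P.2.2)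
  left_inv _ := rfl
  right_inv _ := rfl

/-- `(x,y,z) ↦ (x,z,y)`. -/
def swap23 (p : ℕ) : Equiv.Perm (Pt p) where
  toFun P := (P.1, P.2.2, P.2.1)
  invFun P := (P.1, P.2.2, P.2.1)
  left_inv _ := rfl
  right_inv _ := rfl

/-- The Vieta involution `(x,y,z) ↦ (x,y,xy-z)`. -/
def vieta (p : ℕ) : Equiv.Perm (Pt p) where
  toFun P := (P.1, P.2.1, P.1 * P.2.1 - P.2.2)
  invFun P := (P.1, P.2.1, P.1 * P.2.1 - P.2.2)
  left_inv P := by simp
  right_inv P := by simp

/-- The group `Γ` generated by the coordinate permutations (they are generated by the two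
transpositions `swap12`, `swap23`) and the Vieta involution. -/
def Gam (p : ℕ) : Subgroup (Equiv.Perm (Pt p)) :=
  Subgroup.closure {swap12 p, swap23 p, vieta p}

/-- The level set `M_k(𝔽_p)`. -/
def M (p : ℕ) (k : ZMod p) : Set (Pt p) :=
  {P | P.1 ^ 2 + P.2.1 ^ 2 + P.2.2 ^ 2 - P.1 * P.2.1 * P.2.2 - 2 = k}

/-- The `Γ`-orbit of a triple. -/
def orb (P : Pt p) : Set (Pt p) := {Q | ∃ g ∈ Gam p, g P = Q}

/-- The representatives of the exceptional orbits: `(0,0,0)`, `(t,0,0)` (`t ≠ 0`), `(1,1,0)`,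
`(√2,1,0)`, `(φ₊,φ₋,0)`, `(φ₊,1,0)`, `(φ₋,1,0)`, where `s` runs over all square roots of `2`,
resp. `5`, in `𝔽_p` and `φ± = (1±s)/2`. -/
def IsExcRep (P : Pt p) : Prop :=
  P = (0, 0, 0) ∨ (∃ t : ZMod p, t ≠ 0 ∧ P = (t, 0, 0)) ∨ P = (1, 1, 0) ∨
  (∃ s : ZMod p, s ^ 2 = 2 ∧ P = (s, 1, 0)) ∨
  (∃ s φ ψ : ZMod p, s ^ 2 = 5 ∧ 2 * φ = 1 + s ∧ 2 * ψ = 1 - s ∧
    (P = (φ, ψ, 0) ∨ P = (φ, 1, 0) ∨ P = (ψ, 1, 0)))

/-- `E_k`: the union of the exceptional orbits contained in `M_k(𝔽_p)`. -/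
def E (p : ℕ) (k : ZMod p) : Set (Pt p) :=
  {Q | ∃ P : Pt p, IsExcRep P ∧ orb P ⊆ M p k ∧ Q ∈ orb P}

/-- The assertion of Q1 at `(p,k)`: there is one orbit `C` with `M_k = C ⊔ E_k`
(equivalently `M_k \ E_k` is one orbit). -/
def SingleOrbit (p : ℕ) (k : ZMod p) : Prop :=
  ∃ P : Pt p, M p k \ E p k = orb P

theorem mem_orb_self (P : Pt p) : P ∈ orb P := ⟨1, (Gam p).one_mem, rfl⟩

theorem orb_step (P Q : Pt p) (g : Equiv.Perm (Pt p)) (hg : g ∈ Gam p) (h : Q ∈ orb P) :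
    g Q ∈ orb P := by
  obtain ⟨a, ha, rfl⟩ := h
  exact ⟨g * a, (Gam p).mul_mem hg ha, rfl⟩

theorem swap12_mem : swap12 p ∈ Gam p := Subgroup.subset_closure (by simp)
theorem swap23_mem : swap23 p ∈ Gam p := Subgroup.subset_closure (by simp)
theorem vieta_mem : vieta p ∈ Gam p := Subgroup.subset_closure (by simp)

/-- every element of `Γ` preserves the level sets -/
theorem gam_preserves (k : ZMod p) (g : Equiv.Perm (Pt p)) (hg : g ∈ Gam p) :
    ∀ P : Pt p, g P ∈ M p k ↔ P ∈ M p k := by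
  induction hg using Subgroup.closure_induction with
  | mem x hx =>
    intro P
    simp only [Set.mem_insert_iff, Set.mem_singleton_iff] at hx
    rcases hx with rfl | rfl | rfl
    · simp only [M, swap12, Set.mem_ofPred_eq, Equiv.coe_fn_mk]
      constructor <;> intro h <;> rw [← h] <;> ring
    · simp only [M, swap23, Set.mem_ofPred_eq, Equiv.coe_fn_mk]
      constructor <;> intro h <;> rw [← h] <;> ring
    · simp only [M, vieta, Set.mem_ofPred_eq, Equiv.coe_fn_mk]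
      constructor <;> intro h <;> rw [← h] <;> ring
  | one => intro P; rfl
  | mul x y _ _ hx hy => intro P; rw [Equiv.Perm.mul_apply, hx, hy]
  | inv x _ hx =>
    intro P
    have h1 := hx (x⁻¹ P)
    have h2 : x (x⁻¹ P) = P := x.apply_symm_apply P
    rw [h2] at h1
    exact h1.symm

theorem orb_subset (k : ZMod p) (P : Pt p) (hP : P ∈ M p k) : orb P ⊆ M p k := by
  rintro Q ⟨g, hg, rfl⟩
  exact (gam_preserves k g hg P).2 hP

/-- one step of the orbit enumeration -/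
def step (j : ℕ) (P : Pt p) : Pt p :=
  if j = 0 then (P.2.1, P.1, P.2.2) else
  if j = 1 then (P.1, P.2.2, P.2.1) else (P.1, P.2.1, P.1 * P.2.1 - P.2.2)

/-- orbit enumeration from a list of instructions -/
def build (acc : List (Pt p)) : List (ℕ × ℕ) → List (Pt p)
  | [] => acc
  | (j, i) :: l => build (acc ++ [step j (acc.getD i (acc.headD (0, 0, 0)))]) l

theorem step_mem (S : Set (Pt p)) (hS : ∀ g ∈ Gam p, ∀ P ∈ S, g P ∈ S) (j : ℕ) (P : Pt p)
    (hP : P ∈ S) : step j P ∈ S := by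
  unfold step
  split_ifs
  · exact hS _ swap12_mem P hP
  · exact hS _ swap23_mem P hP
  · exact hS _ vieta_mem P hP

theorem build_mem (S : Set (Pt p)) (hS : ∀ g ∈ Gam p, ∀ P ∈ S, g P ∈ S) (l : List (ℕ × ℕ)) :
    ∀ acc : List (Pt p), acc ≠ [] → (∀ P ∈ acc, P ∈ S) → ∀ P ∈ build acc l, P ∈ S := by
  induction l with
  | nil => intro acc _ h; exact h
  | cons a l ih =>
    intro acc hne h
    obtain ⟨j, i⟩ := a
    apply ih
    · simp
    · intro P hP
      rw [List.mem_append] at hP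
      rcases hP with hP | hP
      · exact h P hP
      · rw [List.mem_singleton] at hP
        subst hP
        apply step_mem S hS
        have hhead : acc.headD (0, 0, 0) ∈ S := by
          cases acc with
          | nil => exact absurd rfl hne
          | cons b t => exact h _ (by simp)
        rw [List.getD_eq_getElem?_getD]
        by_cases hi : i < acc.length
        · rw [List.getElem?_eq_getElem hi]
          exact h _ (List.getElem_mem hi)
        · rw [List.getElem?_eq_none (by omega)]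
          exact hhead

theorem E_closed (k : ZMod p) : ∀ g ∈ Gam p, ∀ P ∈ E p k, g P ∈ E p k := by
  rintro g hg Q ⟨P, hP, hsub, hQ⟩
  exact ⟨P, hP, hsub, orb_step P Q g hg hQ⟩

theorem subset_E (k : ZMod p) (bases : List (Pt p)) (hne : bases ≠ []) (l : List (ℕ × ℕ))
    (hb : ∀ P ∈ bases, IsExcRep P ∧ P ∈ M p k)
    (hall : ∀ x y z : ZMod p, x ^ 2 + y ^ 2 + z ^ 2 - x * y * z - 2 = k →
      (x, y, z) ∈ build bases l) : M p k ⊆ E p k := by
  rintro ⟨x, y, z⟩ hP
  apply build_mem (E p k) (E_closed k) l bases hne _ _ (hall x y z hP)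
  intro P hP
  obtain ⟨h1, h2⟩ := hb P hP
  exact ⟨P, h1, orb_subset k P h2, mem_orb_self P⟩

theorem case3_0 : M 3 0 ⊆ E 3 0 := by
  refine subset_E 0 [(1, 1, 0)] (by simp)
    [(1,0), (2,0), (0,1), (2,1), (2,3), (1,4), (1,5), (0,6), (2,6), (0,7), (2,7), (2,8), (2,10),
      (1,12), (1,13)] ?_ (by decide +kernel)
  intro P hP
  simp only [List.mem_singleton] at hP
  subst hP
  exact ⟨Or.inr (Or.inr (Or.inl rfl)), by show _ = _; decide +kernel⟩

theorem case5_0 : M 5 0 ⊆ E 5 0 := by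
  refine subset_E 0 [(1, 1, 0)] (by simp)
    [(1,0), (2,0), (0,1), (2,1), (2,3), (1,4), (1,5), (0,6), (2,6), (0,7), (2,7), (2,8), (2,10),
      (1,12), (1,13)] ?_ (by decide +kernel)
  intro P hP
  simp only [List.mem_singleton] at hP
  subst hP
  exact ⟨Or.inr (Or.inr (Or.inl rfl)), by show _ = _; decide +kernel⟩

theorem case5_4 : M 5 4 ⊆ E 5 4 := by
  refine subset_E 4 [(1, 0, 0)] (by simp) [(0,0), (1,1), (2,2), (1,3), (0,4)] ?_
    (by decide +kernel)
  intro P hP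
  simp only [List.mem_singleton] at hP
  subst hP
  exact ⟨Or.inr (Or.inl ⟨1, by decide +kernel, rfl⟩), by show _ = _; decide +kernel⟩

theorem case7_0 : M 7 0 ⊆ E 7 0 := by
  refine subset_E 0 [(3, 0, 0), (1, 1, 0)] (by simp)
    [(0,0), (1,2), (2,3), (1,4), (0,5), (1,1), (2,1), (0,7), (2,7), (2,9), (1,10), (1,11), (0,12),
      (2,12), (0,13), (2,13), (2,14), (2,16), (1,18), (1,19)] ?_ (by decide +kernel)
  intro P hP
  simp only [List.mem_cons, List.not_mem_nil, or_false] at hP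
  rcases hP with rfl | rfl
  · exact ⟨Or.inr (Or.inl ⟨3, by decide +kernel, rfl⟩), by show _ = _; decide +kernel⟩
  · exact ⟨Or.inr (Or.inr (Or.inl rfl)), by show _ = _; decide +kernel⟩

theorem case7_1 : M 7 1 ⊆ E 7 1 := by
  refine subset_E 1 [(3, 1, 0)] (by simp)
    [(0,0), (1,0), (2,0), (1,1), (2,1), (0,2), (2,2), (1,3), (0,4), (2,4), (2,6), (1,7), (2,9),
      (1,10), (1,11), (0,12), (2,12), (1,13), (0,14), (2,14), (0,15), (2,15), (2,16), (1,17),
      (0,18), (2,18), (2,19), (2,21), (1,23), (0,24), (2,25), (1,27), (1,28), (0,29), (1,31)] ?_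
    (by decide +kernel)
  intro P hP
  simp only [List.mem_singleton] at hP
  subst hP
  exact ⟨Or.inr (Or.inr (Or.inr (Or.inl ⟨3, by decide +kernel, rfl⟩))),
    by show _ = _; decide +kernel⟩

theorem case11_1 : M 11 1 ⊆ E 11 1 := by
  refine subset_E 1 [(5, 0, 0), (8, 4, 0)] (by simp)
    [(0,0), (1,2), (2,3), (1,4), (0,5), (0,1), (1,1), (2,1), (1,7), (2,7), (0,8), (2,8), (1,9),
      (0,10), (2,10), (1,11), (2,12), (1,13), (0,14), (2,14), (2,15), (1,16), (0,17), (2,17),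
      (1,18), (0,19), (2,19), (2,20), (1,22), (0,23), (2,23), (2,24), (0,26), (2,26), (2,27),
      (1,28), (1,29), (0,30), (2,30), (2,31), (1,32), (1,33), (2,34), (1,36), (0,37), (2,37),
      (2,39), (1,41), (0,42), (2,42), (1,44), (0,45), (2,45), (2,46), (1,48), (0,49), (2,49),
      (2,50), (2,52), (2,53), (1,54), (1,55), (2,56), (2,57), (1,58), (1,59), (1,60), (1,61),
      (0,62), (1,64), (1,65), (0,66), (0,68), (0,69), (0,71), (0,72)] ?_ (by decide +kernel)
  intro P hP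
  simp only [List.mem_cons, List.not_mem_nil, or_false] at hP
  rcases hP with rfl | rfl
  · exact ⟨Or.inr (Or.inl ⟨5, by decide +kernel, rfl⟩), by show _ = _; decide +kernel⟩
  · exact ⟨Or.inr (Or.inr (Or.inr (Or.inr ⟨4, 8, 4, by decide +kernel, by decide +kernel,
      by decide +kernel, Or.inl rfl⟩))), by show _ = _; decide +kernel⟩

theorem not_single {k : ZMod p} (h : M p k ⊆ E p k) : ¬ SingleOrbit p k := by
  rintro ⟨P, hP⟩
  have h1 : P ∈ M p k \ E p k := by rw [hP]; exact mem_orb_self P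
  exact h1.2 (h h1.1)

/-- For `(p,k) = (3,0), (5,0), (5,4), (7,0), (7,1), (11,1)` (in all six cases `p` is an odd prime
and `k ≠ ±2`) every point of `M_k(𝔽_p)` lies in an exceptional orbit, so that
`M_k(𝔽_p) \ E_k` is empty.  In particular the answer to Q1 as posed is negative. -/
theorem result :
    (M 3 0 = E 3 0 ∧ M 5 0 = E 5 0 ∧ M 5 4 = E 5 4 ∧ M 7 0 = E 7 0 ∧ M 7 1 = E 7 1 ∧
      M 11 1 = E 11 1) ∧
    ((0 : ZMod 3) ≠ 2 ∧ (0 : ZMod 3) ≠ -2 ∧ (0 : ZMod 5) ≠ 2 ∧ (0 : ZMod 5) ≠ -2 ∧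
      (4 : ZMod 5) ≠ 2 ∧ (4 : ZMod 5) ≠ -2 ∧ (0 : ZMod 7) ≠ 2 ∧ (0 : ZMod 7) ≠ -2 ∧
      (1 : ZMod 7) ≠ 2 ∧ (1 : ZMod 7) ≠ -2 ∧ (1 : ZMod 11) ≠ 2 ∧ (1 : ZMod 11) ≠ -2) ∧
    (¬ ∀ p : ℕ, p.Prime → p ≠ 2 → ∀ k : ZMod p, k ≠ 2 → k ≠ -2 → SingleOrbit p k) ∧
    (¬ ∀ p : ℕ, p.Prime → 7 < p → ∀ k : ZMod p, k ≠ 2 → k ≠ -2 → SingleOrbit p k) := by
  have hE : ∀ (p : ℕ) (k : ZMod p), E p k ⊆ M p k := by
    rintro p k Q ⟨P, _, hs, hQ⟩
    exact hs hQ
  refine ⟨⟨case3_0.antisymm (hE _ _), case5_0.antisymm (hE _ _), case5_4.antisymm (hE _ _),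
    case7_0.antisymm (hE _ _), case7_1.antisymm (hE _ _), case11_1.antisymm (hE _ _)⟩,
    by decide +kernel, ?_, ?_⟩
  · intro h
    exact not_single case3_0 (h 3 (by norm_num) (by norm_num) 0 (by decide +kernel)
      (by decide +kernel))
  · intro h
    exact not_single case11_1 (h 11 (by norm_num) (by norm_num) 1 (by decide +kernel)
      (by decide +kernel))

end Pool.Agent.Results.MP_c86b5e_nt.SmallLevelsOnlyExceptional
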